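import Pool.Agent.H88.KN.Targets
import Pool.Agent.H58.Kuhn

open Finset

namespace Pool.Agent.H58.KN

open Pool.Agent.H88.KN

theorem pf_EQ : T_EQ := by
  intro M _ V hV hnn hz
  have hM : (0 : ℝ) < M := by
    have := NeZero.pos M
    exact_mod_cast this
  -- retraction of the cube to the simplex
  let r : (Fin M → ℝ) → (Fin M → ℝ) := fun y i =>
    (y i + max 0 (1 - ∑ k, y k) / M) / max 1 (∑ k, y k)
  have hrc : Continuous r := by
    refine continuous_pi fun i => ?_
    have hS : Continuous (fun y : Fin M → ℝ => ∑ k, y k) :=
      continuous_finset_sum _ fun k _ => continuous_apply k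
    refine Continuous.div ?_ ?_ ?_
    · exact (continuous_apply i).add ((continuous_const.max (continuous_const.sub hS)).div_const _)
    · exact continuous_const.max hS
    · intro y
      exact (lt_of_lt_of_le one_pos (le_max_left _ _)).ne'
  have hrs : ∀ y : Fin M → ℝ, (∀ i, 0 ≤ y i) → r y ∈ stdSimplex ℝ (Fin M) := by
    intro y hy
    have hpos : (0 : ℝ) < max 1 (∑ k, y k) := lt_of_lt_of_le one_pos (le_max_left _ _)
    refine ⟨fun i => ?_, ?_⟩
    · exact div_nonneg (add_nonneg (hy i) (div_nonneg (le_max_left _ _) hM.le)) hpos.le
    · simp only [r]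
      rw [← Finset.sum_div, Finset.sum_add_distrib, Finset.sum_const, Finset.card_univ,
        Fintype.card_fin, nsmul_eq_mul, mul_div_cancel₀ _ hM.ne', div_eq_one_iff_eq hpos.ne']
      rcases le_total (∑ k, y k) 1 with h | h
      · rw [max_eq_right (by linarith), max_eq_left h]
        ring
      · rw [max_eq_left (by linarith), max_eq_right h]
        ring
  -- the map of the simplex
  let c : (Fin M → ℝ) → ℝ := fun g => (∑ k, V g k) / M
  let F : (Fin M → ℝ) → (Fin M → ℝ) := fun g i =>
    (g i + max 0 (c g - V g i)) / (1 + ∑ k, max 0 (c g - V g k))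
  have hVi : ∀ i, Continuous (fun g => V g i) := fun i => (continuous_apply i).comp hV
  have hcc : Continuous c := by
    exact (continuous_finset_sum _ fun k _ => hVi k).div_const _
  have hden : ∀ g, (0 : ℝ) < 1 + ∑ k, max 0 (c g - V g k) := fun g =>
    add_pos_of_pos_of_nonneg one_pos (Finset.sum_nonneg fun k _ => le_max_left _ _)
  have hFc : Continuous F := by
    refine continuous_pi fun i => ?_
    refine Continuous.div ?_ ?_ ?_
    · exact (continuous_apply i).add (continuous_const.max (hcc.sub (hVi i)))
    · exact continuous_const.add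
        (continuous_finset_sum _ fun k _ => continuous_const.max (hcc.sub (hVi k)))
    · intro g
      exact (hden g).ne'
  have hFs : ∀ g ∈ stdSimplex ℝ (Fin M), F g ∈ stdSimplex ℝ (Fin M) := by
    intro g hg
    refine ⟨fun i => ?_, ?_⟩
    · exact div_nonneg (add_nonneg (hg.1 i) (le_max_left _ _)) (hden g).le
    · simp only [F]
      rw [← Finset.sum_div, Finset.sum_add_distrib, hg.2, div_self (hden g).ne']
  obtain ⟨y, hy, hfix⟩ := Pool.Agent.H58.Kuhn.brouwer_cube (fun y => F (r y))
    (hFc.comp hrc).continuousOn (by
      intro y hy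
      have hs := hFs _ (hrs y (fun i => hy.1 i))
      refine ⟨fun i => hs.1 i, fun i => ?_⟩
      have := Finset.single_le_sum (f := F (r y)) (fun k _ => hs.1 k) (Finset.mem_univ i)
      rw [hs.2] at this
      exact this)
  have hys : y ∈ stdSimplex ℝ (Fin M) := by
    have h1 := hFs _ (hrs y (fun i => hy.1 i))
    have h2 : F (r y) = y := hfix
    rwa [h2] at h1
  have hry : r y = y := by
    funext i
    simp only [r]
    rw [hys.2]
    simp
  have hFy : F y = y := by
    have h2 : F (r y) = y := hfix
    rwa [hry] at h2
  refine ⟨y, hys, ?_⟩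
  set S' : ℝ := ∑ k, max 0 (c y - V y k) with hS'
  have hS'0 : 0 ≤ S' := Finset.sum_nonneg fun k _ => le_max_left _ _
  have hkey : ∀ i, y i * S' = max 0 (c y - V y i) := by
    intro i
    have h1 : (y i + max 0 (c y - V y i)) / (1 + S') = y i := congrFun hFy i
    rw [div_eq_iff (by linarith : (1 + S') ≠ 0)] at h1
    linarith
  have hmean : ∑ k, V y k = M * c y := by
    simp only [c]
    field_simp
  have hsum0 : ∑ k, (V y k - c y) = 0 := by
    rw [Finset.sum_sub_distrib, Finset.sum_const, Finset.card_univ, Fintype.card_fin,
      nsmul_eq_mul, hmean]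
    ring
  rcases hS'0.eq_or_lt with h0 | hpos
  · -- all values are at least the mean
    have hge : ∀ i, c y ≤ V y i := by
      intro i
      have h1 := hkey i
      rw [← h0, mul_zero] at h1
      have h2 := le_max_right 0 (c y - V y i)
      linarith
    have heq : ∀ i, V y i = c y := by
      intro i
      have h1 := (Finset.sum_eq_zero_iff_of_nonneg
        (fun k _ => sub_nonneg.mpr (hge k))).mp hsum0 i (Finset.mem_univ i)
      linarith
    intro i i'
    rw [heq i, heq i']
  · exfalso
    have hypos : ∀ i, 0 < y i := by
      intro i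
      rcases (hys.1 i).eq_or_lt with hi | hi
      · exfalso
        have hVi0 : V y i = 0 := hz y hys i hi.symm
        have h1 := hkey i
        rw [← hi, zero_mul, hVi0] at h1
        have h2 := le_max_right 0 (c y - 0)
        have hc0 : c y ≤ 0 := by linarith
        have hall : ∀ k, V y k = 0 := by
          have hs : ∑ k, V y k = 0 := by
            apply le_antisymm
            · rw [hmean]
              exact mul_nonpos_of_nonneg_of_nonpos hM.le hc0
            · exact Finset.sum_nonneg fun k _ => hnn y hys k
          intro k
          exact (Finset.sum_eq_zero_iff_of_nonneg (fun k _ => hnn y hys k)).mp hs k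
            (Finset.mem_univ k)
        have : S' = 0 := by
          rw [hS']
          refine Finset.sum_eq_zero fun k _ => ?_
          rw [hall k]
          exact max_eq_left (by linarith)
        linarith
      · exact hi
    have hlt : ∀ i, V y i < c y := by
      intro i
      have h1 := hkey i
      have h2 : 0 < y i * S' := mul_pos (hypos i) hpos
      rw [h1] at h2
      rcases lt_max_iff.mp h2 with h3 | h3
      · exact absurd h3 (lt_irrefl _)
      · linarith
    have : ∑ k, (V y k - c y) < 0 := by
      have hne : (Finset.univ : Finset (Fin M)).Nonempty :=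
        ⟨⟨0, NeZero.pos M⟩, Finset.mem_univ _⟩
      exact Finset.sum_neg (fun k _ => by linarith [hlt k]) hne
    linarith

end Pool.Agent.H58.KN
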