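import Pool.Agent.H88.KN.Targets

open Finset

namespace Pool.Agent.H58.KN

open Pool.Agent.H88.KN

theorem pf_SL : T_SL := by
  classical
  intro C
  obtain ⟨M, hM⟩ : ∃ M : ℝ, ∀ c ∈ C, c ≤ M := by
    obtain ⟨M, hM⟩ := C.bddAbove
    exact ⟨M, fun c hc => hM hc⟩
  set n := C.card with hn
  let e := C.orderEmbOfFin hn.symm
  let a : ℕ → ℝ := fun i => if h : i < n then e ⟨i, h⟩ else M + 1 + i
  have ha1 : ∀ i (h : i < n), a i = e ⟨i, h⟩ := fun i h => by simp only [a, dif_pos h]
  have ha2 : ∀ i, ¬ i < n → a i = M + 1 + i := fun i h => by simp only [a, dif_neg h]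
  have hamono : StrictMono a := by
    refine strictMono_nat_of_lt_succ fun i => ?_
    by_cases h1 : i + 1 < n
    · rw [ha1 i (by omega), ha1 (i + 1) h1]
      exact e.strictMono (by simp)
    · by_cases h2 : i < n
      · rw [ha1 i h2, ha2 (i + 1) h1]
        have := hM (e ⟨i, h2⟩) (Finset.orderEmbOfFin_mem C hn.symm _)
        push_cast
        have hi : (0 : ℝ) ≤ i := Nat.cast_nonneg i
        linarith
      · rw [ha2 i h2, ha2 (i + 1) h1]
        push_cast
        linarith
  have hmem : ∀ i, i < n → a i ∈ C := fun i h => by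
    rw [ha1 i h]
    exact Finset.orderEmbOfFin_mem C hn.symm _
  have hC : ∀ c ∈ C, ∃ i, i < n ∧ a i = c := by
    intro c hc
    have : c ∈ Set.range e := by
      rw [Finset.range_orderEmbOfFin]
      exact hc
    obtain ⟨i, hi⟩ := this
    exact ⟨i.1, i.2, by rw [ha1 i.1 i.2]; exact hi⟩
  let s : ℕ → ℝ := fun τ => match τ with
    | 0 => a 0 - 1
    | τ + 1 => (a τ + a (τ + 1)) / 2
  have hs1 : ∀ τ, s τ < a τ := by
    intro τ
    cases τ with
    | zero =>
      change a 0 - 1 < a 0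
      linarith
    | succ τ =>
      change (a τ + a (τ + 1)) / 2 < a (τ + 1)
      have := hamono (Nat.lt_succ_self τ)
      linarith
  have hs2 : ∀ τ, a τ < s (τ + 1) := by
    intro τ
    change a τ < (a τ + a (τ + 1)) / 2
    have := hamono (Nat.lt_succ_self τ)
    linarith
  have hsm : StrictMono s := strictMono_nat_of_lt_succ fun τ => (hs1 τ).trans (hs2 τ)
  have hlt : ∀ i τ, i < τ → a i < s τ := fun i τ h =>
    (hs2 i).trans_le (hsm.monotone h)
  have hgt : ∀ i τ, τ ≤ i → s τ < a i := fun i τ h =>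
    (hsm.monotone h).trans_lt (hs1 i)
  refine ⟨s, hsm, ?_, ?_, ?_⟩
  · intro τ hτ
    obtain ⟨i, _, hi⟩ := hC _ hτ
    rcases lt_or_ge i τ with h | h
    · have := hlt i τ h
      rw [hi] at this
      exact lt_irrefl _ this
    · have := hgt i τ h
      rw [hi] at this
      exact lt_irrefl _ this
  · intro τ hτ
    refine ⟨a τ, hmem τ hτ, hs1 τ, hs2 τ, ?_⟩
    intro c' hc' h1 h2
    obtain ⟨i, _, hi⟩ := hC c' hc'
    rcases lt_trichotomy i τ with h | h | h
    · have := hlt i τ h
      rw [hi] at this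
      exact absurd h1 (not_lt.mpr this.le)
    · rw [← hi, h]
    · have := hgt i (τ + 1) h
      rw [hi] at this
      exact absurd h2 (not_lt.mpr this.le)
  · intro c hc
    obtain ⟨i, hi, rfl⟩ := hC c hc
    exact ⟨hgt i 0 (Nat.zero_le _), hlt i n hi⟩

end Pool.Agent.H58.KN
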